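import Pool.Agent.N848.W.Rat

/-!
# The Bloch–Kato Selmer groups of all odd weights for the quadratic twists of `X_0(49)`: natural
# density, no condition on the prime factors

`K = ℚ(√-7)` with ring of integers `ℤ[ω]`, `ω² = ω - 2`; `(2) = (ω) (1 - ω)`. Let `E_D` be the
quadratic twist of `X_0(49)` by the squarefree `D ∈ ℤ[ω]`, `D ≡ 1 mod 4`, `√-7 ∤ D`: the twists by
the quadratic characters of `K` that are unramified at `2` and at `√-7`, no condition being imposed
on the prime factors of `D`. The group `Gal(ℚ̄/K)` acts on the `2`-adic Tate module of `E_D` by two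
characters `κ`, `κ'`. For `k > 0` the representation `H^{2k-1}(E_D^{2k-1}, ℚ_2(k))` contains the
`2`-adic representation `ℚ_2(κ^k κ'^(1-k)) ⊕ ℚ_2(κ^(1-k) κ'^k)` of the motive of the Hecke character
`ψ_D^{2k-1}`, at the central point (if `D` is rational, the restriction to `K` of the representation
of the newform of weight `2k` of this character).

* If `E_D(K)` is finite and `Ш(E_D/K)` has no element of order two then the Bloch–Kato Selmer groups
  over `K` of these representations are zero for all odd `k > 0`: the condition is on the weight `2`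
  only.
* More generally let `L = K(√d_1, …, √d_n)` and let `M` be such that all the `M ∏_{i ∈ T} d_i` are,
  up to squares, elements `D` of the class with this property. Then the Selmer groups over `L` of
  the representations for `E_M` are zero for all odd `k > 0`. For instance this holds for the curve
  `X_0(49)` itself and `L = K(√D)`.
* Among all the `D` of the class, ordered by the norm, those with this property have the natural
  density `c2 = ∏ (1 - 2^(-i)) = 0.288…`; they are a positive proportion of all the `D ∈ ℤ[ω]`.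
* For rational `D`, that is for all the squarefree numbers `D ≥ 1`, `D ≡ 1 mod 4`, `7 ∤ D`, the same
  holds for the `D` such that `E_D(ℚ)` is finite and `Ш(E_D/ℚ)` has no element of order two, and
  these have the natural density `κ / 2`, `κ = ∏ (1 - 2^(-2i-1))`, `κ / 2 = 0.2097…`.

Proof. The characters `κ`, `κ'` modulo `8` are computed from the `4`-division points of the curve:
`κ' = ±1 mod 8` exactly on `Gal(ℚ̄/K(√(ω-1)))`. For a normalised cocycle with values in `ℤ_2`, its
reduction modulo `2` is given by a squarefree `δ ∈ ℤ[ω]`. The class is a coboundary on the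
decomposition group of the strict place above `2`, where the field of `-√-7 D` is unramified but the
field of definition modulo `8` is ramified, so `δ` is unramified there; at the other place above `2`
there is no condition, and `δ` has even valuation by the theorem 90 of Hilbert over the maximal
unramified extension. The other places give the equations of the kernel of the matrix of the
quadratic residue symbols of the descent, also for the twists with prime factors `≡ 3 mod 4`, where
the matrix is not symmetric and the two isogenies above `2` play different roles. The criterion and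
the densities for the matrix are from `Pool/Agent/R426`, `Pool/Agent/N818/TC` and
`Pool/Agent/N973/ND`.
-/

set_option autoImplicit false

namespace Pool.Agent.Results.MP_787500_nt.OddWeightsNaturalDensity

open WeierstrassCurve Filter Topology
open scoped Classical

/-! ### The curves -/

/-- An algebraic closure of `ℚ`. -/
abbrev QBar : Type := AlgebraicClosure ℚ

/-- The ring of integers `ℤ[ω]`, `ω² = ω - 2`, of `ℚ(√-7)`. -/
abbrev OK : Type := QuadraticAlgebra ℤ (-2) 1

/-- The field `K = ℚ(w)`. It is `ℚ(√-7)` if `w² = w - 2`. -/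
noncomputable abbrev K (w : QBar) : IntermediateField ℚ QBar := IntermediateField.adjoin ℚ {w}

/-- `w` as an element of `K`. -/
noncomputable def gen (w : QBar) : K w := ⟨w, IntermediateField.mem_adjoin_simple_self ℚ w⟩

/-- The element `a + b ω` of `ℤ[ω]` as an element of the field `L`, `w` being the image of `ω`. -/
def emb {L : Type} [Ring L] (w : L) (z : OK) : L := z.re + z.im * w

/-- The curve `y² = x³ + 3 (1 - w) d x² + w⁴ d² x`. -/
def curve {F : Type} [Field F] (w d : F) : WeierstrassCurve F :=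
  ⟨0, 3 * (1 - w) * d, 0, w ^ 4 * d ^ 2, 0⟩

/-- The curve `F_D : y² = x³ + 3 (1 - ω) D x² + ω⁴ D² x` over `K`. -/
noncomputable def ED (w : QBar) (D : OK) : WeierstrassCurve (K w) := curve (gen w) (emb (gen w) D)

/-- The absolute Galois group of `K`. -/
abbrev Gal (w : QBar) : Type := QBar ≃ₐ[K w] QBar

/-- The subgroups of the Galois group. -/
abbrev Sub (w : QBar) : Type := Subgroup (Gal w)

/-- The characters of the Galois group with values in the units of `ℤ_2`. -/
abbrev Chr (w : QBar) : Type := Gal w →* ℤ_[2]ˣ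

/-- The values of the character `χ`, in `ℤ_2`. -/
noncomputable def zv {w : QBar} (χ : Chr w) (σ : Gal w) : ℤ_[2] := ((χ σ : ℤ_[2]ˣ) : ℤ_[2])

/-- The values of the character `χ`, in `ℚ_2`. -/
noncomputable def qv {w : QBar} (χ : Chr w) (σ : Gal w) : ℚ_[2] := ((zv χ σ : ℤ_[2]) : ℚ_[2])

/-- The group `F_D(ℚ̄)`. -/
abbrev Pts (w : QBar) (D : OK) : Type := ((ED w D).toAffine.baseChange QBar).Point

/-- The action of the Galois group on `F_D(ℚ̄)`. -/
noncomputable def act {w : QBar} {D : OK} (σ : Gal w) : Pts w D →+ Pts w D :=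
  Affine.Point.map (W' := (ED w D).toAffine) (S := K w) (F := QBar) (K := QBar) σ.toAlgHom

/-- The sequences `x` and `y` are elements of the `2`-adic Tate module of the abelian group `A`, and
they are a basis of it. -/
structure IsBasis {A : Type} [AddCommGroup A] (x y : ℕ → A) : Prop where
  zero : x 0 = 0 ∧ y 0 = 0
  double : ∀ n, x (n + 1) + x (n + 1) = x n ∧ y (n + 1) + y (n + 1) = y n
  span : ∀ (n : ℕ) (P : A), (2 ^ n : ℤ) • P = 0 → ∃ a b : ℤ, P = a • x n + b • y n
  indep : ∀ (n : ℕ) (a b : ℤ), a • x n + b • y n = 0 → (2 ^ n : ℤ) ∣ a ∧ (2 ^ n : ℤ) ∣ b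

/-- The endomorphism `f` of the abelian group `A` acts on the element `x` of its `2`-adic Tate module
as the multiplication by the `2`-adic integer `z`. -/
def ActsBy {A : Type} [AddCommGroup A] (f : A →+ A) (x : ℕ → A) (z : ℤ_[2]) : Prop :=
  ∀ (n : ℕ) (k : ℤ), (2 : ℤ_[2]) ^ n ∣ z - k → f (x n) = k • x n

/-! ### The Selmer groups -/

/-- The decomposition group of the place of `K` given by the embedding `ι` of `ℚ̄`. -/
def Dec {w : QBar} {p : ℕ} [Fact p.Prime] (ι : QBar →ₐ[ℚ] PadicAlgCl p) : Set (Gal w) :=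
  {σ | ∃ τ : PadicAlgCl p ≃ₐ[ℚ_[p]] PadicAlgCl p, ∀ x, τ (ι x) = ι (σ x)}

/-- Its inertia group: the automorphisms which are trivial on the residue field. -/
def Inr {w : QBar} {p : ℕ} [Fact p.Prime] (ι : QBar →ₐ[ℚ] PadicAlgCl p) : Set (Gal w) :=
  {σ | ∃ τ : PadicAlgCl p ≃ₐ[ℚ_[p]] PadicAlgCl p, (∀ x, τ (ι x) = ι (σ x)) ∧
    ∀ z : PadicAlgCl p, ‖z‖ ≤ 1 → ‖τ z - z‖ < 1}

/-- The restriction of the function `c` to `H` is a continuous cocycle with values in `ℚ_2(χ)`. -/
structure IsCocycle {w : QBar} (H : Sub w) (χ : Chr w) (c : Gal w → ℚ_[2]) : Prop where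
  cont : ContinuousOn c H
  mul : ∀ σ ∈ H, ∀ τ ∈ H, c (σ * τ) = c σ + qv χ σ * c τ

/-- The restriction of `c` to the intersection of `S` and `H` is a coboundary. -/
def TrivialOn {w : QBar} (H : Sub w) (χ : Chr w) (S : Set (Gal w)) (c : Gal w → ℚ_[2]) : Prop :=
  ∃ y : ℚ_[2], ∀ σ ∈ S, σ ∈ H → c σ = (qv χ σ - 1) * y

/-- The Bloch–Kato conditions over the field `L` fixed by `H`, for a character `χ` whose Hodge–Tate
weight is positive at one of the two places of `K` above `2` and not positive at the other one, which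
is the one that divides `v`: the class is trivial on the inertia groups of the places of `L` prime to
`2` and on the decomposition groups of the places of `L` which divide `v`. -/
structure IsSelmer {w : QBar} (v : QBar) (H : Sub w) (χ : Chr w) (c : Gal w → ℚ_[2]) : Prop where
  odd : ∀ (p : ℕ) [Fact p.Prime] (ι : QBar →ₐ[ℚ] PadicAlgCl p), p ≠ 2 → TrivialOn H χ (Inr ι) c
  two : ∀ ι : QBar →ₐ[ℚ] PadicAlgCl 2, ‖ι v‖ < 1 → TrivialOn H χ (Dec ι) c

/-- All the classes of the Selmer group of `ℚ_2(χ)` over the field fixed by `H` are trivial. -/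
def SelmerZero {w : QBar} (v : QBar) (H : Sub w) (χ : Chr w) : Prop :=
  ∀ c : Gal w → ℚ_[2], IsCocycle H χ c → IsSelmer v H χ c → TrivialOn H χ Set.univ c

/-- The character `κ ^ j κ' ^ (1 - j)`. -/
noncomputable def chi {w : QBar} (κ κ' : Chr w) (j : ℤ) : Chr w := κ ^ j * κ' ^ (1 - j)

/-- `κ` has order at most two on the inertia groups of the places that do not divide `v`. -/
def FiniteOff {w : QBar} (v : QBar) (κ : Chr w) : Prop :=
  ∀ (p : ℕ) [Fact p.Prime] (ι : QBar →ₐ[ℚ] PadicAlgCl p), ‖ι v‖ = 1 → ∀ σ ∈ Inr ι, zv κ σ ^ 2 = 1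

/-- The character `κ` is continuous and the Galois group acts by it on the element `x` of the Tate
module. -/
def Eigen {w : QBar} {D : OK} (κ : Chr w) (x : ℕ → Pts w D) : Prop :=
  Continuous (zv κ) ∧ ∀ σ : Gal w, ActsBy (act σ) x (zv κ σ)

/-- The Galois group acts on the `2`-adic Tate module of `F_D` through the sum of the continuous
characters `κ`, `κ'`; the first one has order at most two on the inertia groups of the places that
do not divide `ω`, and the second one on those of the places that do not divide `1 - ω`. So `κ` has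
the Hodge–Tate weights `1` at `ω` and `0` at `1 - ω`, and `κ'` has the weights `0` at `ω` and `1` at
`1 - ω`. -/
def TateModule {w : QBar} (D : OK) (κ κ' : Chr w) : Prop :=
  (∃ x y : ℕ → Pts w D, IsBasis x y ∧ Eigen κ x ∧ Eigen κ' y) ∧
    FiniteOff w κ ∧ FiniteOff (1 - w) κ'

/-! ### The twists of `X_0(49)` -/

/-- `K` is a number field. -/
instance (w : QBar) : NumberField (K w) where
  to_charZero := inferInstance
  to_finiteDimensional := IntermediateField.adjoin.finiteDimensional
    (Algebra.IsIntegral.isIntegral w)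

/-- The curve `y² + x y = x³ - ((3 d + 1) / 4) x² - 2 d² x - d³` over the field `F`, the quadratic
twist by `d` of `X_0(49) : y² + x y = x³ - x² - 2 x - 1`. -/
def twist {F : Type} [Field F] (d : F) : WeierstrassCurve F :=
  ⟨1, -((3 * d + 1) / 4), 0, -2 * d ^ 2, -d ^ 3⟩

/-- `E(F)` is finite and `Ш(E/F)` has no element of order two. -/
def RankZeroShaTwo {F : Type} [Field F] [NumberField F] (E : WeierstrassCurve F) : Prop :=
  Finite E.toAffine.Point ∧ ∀ x : Pool.Agent.TH841.NF.D.Sha E, 2 • x = 0 → x = 0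

/-- The curve `E_D` over `K`, `D ∈ ℤ[ω]`. -/
noncomputable def EK (w : QBar) (D : OK) : WeierstrassCurve (K w) := twist (emb (gen w) D)

/-- The element `√-7 = 2 ω - 1`. -/
def sqrtNegSeven : OK := ⟨-1, 2⟩

/-- The element `-√-7 D` of `ℤ[ω]`. -/
def tw (D : OK) : OK := -(sqrtNegSeven * D)

/-- The class: `D ∈ ℤ[ω]` is squarefree, `D ≡ 1 mod 4`, and `√-7` does not divide `D`. -/
def Adm (D : OK) : Prop := Squarefree D ∧ (4 : OK) ∣ D - 1 ∧ ¬ sqrtNegSeven ∣ D

/-- The rational integers of the class: `D ≥ 1` is squarefree, `D ≡ 1 mod 4`, and `7 ∤ D`. -/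
def AdmQ (D : ℕ) : Prop := Squarefree D ∧ D % 4 = 1 ∧ ¬ 7 ∣ D

/-- The good pairs: all the elements `M ∏_{i ∈ T} d_i` are, up to nonzero squares, elements `D` of
the class such that `E_D(K)` is finite and `Ш(E_D/K)` has no element of order two. -/
def Good (w : QBar) (M : OK) {n : ℕ} (d : Fin n → OK) : Prop := ∀ T : Finset (Fin n), ∃ D z : OK,
  z ≠ 0 ∧ Adm D ∧ RankZeroShaTwo (EK w D) ∧ M * ∏ i ∈ T, d i = D * z ^ 2

/-- The good pairs of rational integers: all the numbers `M ∏_{i ∈ T} d_i` are, up to nonzero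
squares, numbers `D` of the class such that `E_D(ℚ)` is finite and `Ш(E_D/ℚ)` has no element of order
two. -/
def GoodQ (M : ℕ) {n : ℕ} (d : Fin n → ℕ) : Prop := ∀ T : Finset (Fin n), ∃ D k : ℕ,
  k ≠ 0 ∧ AdmQ D ∧ RankZeroShaTwo (twist (D : ℚ)) ∧ M * ∏ i ∈ T, d i = D * k ^ 2

/-- The Galois group of `ℚ̄` over the field `L = K(s_1, …, s_n)`. -/
noncomputable def GalL (w : QBar) {n : ℕ} (s : Fin n → QBar) : Sub w :=
  (IntermediateField.adjoin (K w) (Set.range s)).fixingSubgroup

/-- The curves are isomorphic: they differ by a change of variables. -/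
def Iso {F : Type} [Field F] (W W' : WeierstrassCurve F) : Prop :=
  ∃ C : VariableChange F, C • W = W'

/-- All the classes of the Selmer groups over `L = K(s_1, …, s_n)` of `ℚ_2(κ^k κ'^(1-k))` and
`ℚ_2(κ^(1-k) κ'^k)` are trivial for all odd `k > 0`. -/
def OddWeights {w : QBar} (κ κ' : Chr w) {n : ℕ} (s : Fin n → QBar) : Prop :=
  ∀ k : ℤ, 0 < k → Odd k → SelmerZero (1 - w) (GalL w s) (chi κ κ' k) ∧
    SelmerZero w (GalL w s) (chi κ κ' (1 - k))

/-- The curve `E_M` over `K` is isomorphic to the elliptic curve `F_D`, `D = -√-7 M`, the Galois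
group acts on its `2`-adic Tate module by `κ`, `κ'`, and all the classes of the Selmer groups over
`L = K(√d_1, …, √d_n)` of `ℚ_2(κ^k κ'^(1-k))` and `ℚ_2(κ^(1-k) κ'^k)` are trivial for all odd
`k > 0`. -/
def AllWeights (w : QBar) (M : OK) {n : ℕ} (d : Fin n → OK) : Prop :=
  Iso (EK w M) (ED w (tw M)) ∧ (ED w (tw M)).IsElliptic ∧
  ∃ κ κ' : Chr w, TateModule (tw M) κ κ' ∧
    ∀ s : Fin n → QBar, (∀ i, s i ^ 2 = emb w (d i)) → OddWeights κ κ' s

/-- All the Selmer groups of odd weight are zero for the curve `E_D` over `K` and for the curve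
`E_1 = X_0(49)` over `K(√D)`. -/
def BothVanish (w : QBar) (D : OK) : Prop :=
  AllWeights w D (n := 0) Fin.elim0 ∧ AllWeights w 1 (n := 1) fun _ => D

/-- The norm of `a + b ω`. -/
def norm (D : OK) : ℤ := D.re ^ 2 + D.re * D.im + 2 * D.im ^ 2

/-- The number of the `D` of the class with norm at most `X` and with the property `P`. -/
noncomputable def count (P : OK → Prop) (X : ℕ) : ℕ := {D : OK | norm D ≤ X ∧ Adm D ∧ P D}.ncard

/-- The property `P` has the natural density `y` in the class. -/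
def HasDensity (P : OK → Prop) (y : ℝ) : Prop :=
  Tendsto (fun X : ℕ => (count P X : ℝ) / (count (fun _ => True) X : ℝ)) atTop (nhds y)

/-- The number of the `D ≤ X` of the rational class with the property `P`. -/
noncomputable def countQ (P : ℕ → Prop) (X : ℕ) : ℕ :=
  ((Finset.Icc 1 X).filter fun D : ℕ => AdmQ D ∧ P D).card

/-- The property `P` has the natural density `y` in the rational class. -/
def HasDensityQ (P : ℕ → Prop) (y : ℝ) : Prop :=
  Tendsto (fun X : ℕ => (countQ P X : ℝ) / (countQ (fun _ => True) X : ℝ)) atTop (nhds y)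

/-- The product `(1 - 1/2) (1 - 1/4) (1 - 1/8) ⋯`. -/
noncomputable def c2 : ℝ := ∏' i : ℕ, (1 - (1 / 2 : ℝ) ^ (i + 1))

/-- The product `(1 - 1/2) (1 - 1/8) (1 - 1/32) ⋯`. -/
noncomputable def c : ℝ := ∏' i : ℕ, (1 - (1 / 2 : ℝ) ^ (2 * i + 1))

/-! ### The proof -/

section proof

open Pool.Agent.Y676.IS (Cu some_congr)
open Pool.Agent.R384 (WD ca cb em)

variable {w : QBar} (hw : w ^ 2 = w - 2) {D : OK}

lemma gen_sq : gen w ^ 2 = gen w - 2 ↔ w ^ 2 = w - 2 := by
  rw [Subtype.ext_iff]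
  rfl

lemma emb_eq (z : OK) : ((emb (gen w) z : K w) : QBar) = em hw z := by
  unfold emb
  rw [Pool.Agent.R384.em_apply]
  push_cast
  rfl

lemma curve_eq : (ED w D).toAffine.baseChange QBar = Cu (ca w (em hw D)) (cb w (em hw D)) := by
  have h1 : algebraMap (K w) QBar (gen w) = w := rfl
  have h2 : algebraMap (K w) QBar (emb (gen w) D) = em hw D := emb_eq hw D
  unfold ED curve Cu ca cb WeierstrassCurve.Affine.baseChange WeierstrassCurve.toAffine
  ext
  · exact map_zero _
  · show algebraMap (K w) QBar (3 * (1 - gen w) * emb (gen w) D) = _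
    rw [map_mul, map_mul, map_sub, map_one, map_ofNat, h1, h2]
  · exact map_zero _
  · show algebraMap (K w) QBar (gen w ^ 4 * emb (gen w) D ^ 2) = _
    rw [map_mul, map_pow, map_pow, h1, h2]
  · exact map_zero _

/-- the points of equal curves -/
noncomputable def tr {W W' : Affine QBar} (h : W = W') : W.Point ≃+ W'.Point := by
  subst h
  exact AddEquiv.refl _

lemma tr_some {W W' : Affine QBar} (h : W = W') {a b : QBar} (hab : W.Nonsingular a b) :
    tr h (.some a b hab) = .some a b (h ▸ hab) := by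
  subst h
  rfl

lemma tr_act (h : WD w (em hw D)) (fx : ∀ σ : Gal w, Pool.Agent.R384.Fx w (em hw D)
    (Pool.Agent.R384.rh σ)) (σ : Gal w) (P : Pts w D) :
    tr (curve_eq hw) (act σ P) = Pool.Agent.R384.act h fx σ (tr (curve_eq hw) P) := by
  rcases P with _ | ⟨a, b, hab⟩
  · show tr (curve_eq hw) (act σ 0) = Pool.Agent.R384.act h fx σ (tr (curve_eq hw) 0)
    simp only [map_zero]
  · rw [tr_some (curve_eq hw) hab]
    exact tr_some (curve_eq hw) (a := σ.toAlgHom a) (b := σ.toAlgHom b)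
      ((Affine.baseChange_nonsingular (ED w D).toAffine σ.toAlgHom.injective ..).mpr hab)

lemma elliptic (hD : D ≠ 0) (hw : w ^ 2 = w - 2) : (ED w D).IsElliptic := by
  have hg := gen_sq.2 hw
  have hg0 : gen w ≠ 0 := by
    intro h
    rw [h] at hg
    norm_num at hg
  have hg1 : 1 - gen w ≠ 0 := by
    intro h
    have h1 : gen w = 1 := (sub_eq_zero.1 h).symm
    rw [h1] at hg
    norm_num at hg
  have hd : (emb (gen w) D : K w) ≠ 0 := by
    intro h
    have h1 := emb_eq hw D
    rw [h] at h1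
    exact hD (Pool.Agent.R384.em_inj hw h1.symm)
  rw [WeierstrassCurve.isElliptic_iff, isUnit_iff_ne_zero]
  have e : (ED w D).Δ = 16 * (gen w ^ 4 * emb (gen w) D ^ 2) ^ 2 *
      ((1 - gen w) ^ 8 * emb (gen w) D ^ 2) := by
    simp only [ED, curve, WeierstrassCurve.Δ, WeierstrassCurve.b₂, WeierstrassCurve.b₄,
      WeierstrassCurve.b₆, WeierstrassCurve.b₈]
    generalize emb (gen w) D = d at *
    generalize gen w = g at *
    have h2 : (1 - g) ^ 2 = -1 - g := by linear_combination hg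
    have h4 : (1 - g) ^ 4 = 3 * g - 1 := by
      have : (1 - g) ^ 4 = ((1 - g) ^ 2) ^ 2 := by ring
      rw [this, h2]
      linear_combination hg
    have h8 : (1 - g) ^ 8 = 3 * g - 17 := by
      have : (1 - g) ^ 8 = ((1 - g) ^ 4) ^ 2 := by ring
      rw [this, h4]
      linear_combination 9 * hg
    have g4 : g ^ 4 = 2 - 3 * g := by linear_combination (g ^ 2 + g - 1) * hg
    rw [h8]
    have e1 : 9 * (1 - g) ^ 2 - 4 * g ^ 4 = 3 * g - 17 := by
      rw [h2, g4]; ring
    rw [← e1]
    ring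
  rw [e]
  exact mul_ne_zero (mul_ne_zero (by norm_num) (pow_ne_zero _ (mul_ne_zero (pow_ne_zero _ hg0)
    (pow_ne_zero _ hd)))) (mul_ne_zero (pow_ne_zero _ hg1) (pow_ne_zero _ hd))

/-! ### The isomorphism -/

lemma gen_iso {F : Type} [Field F] [CharZero F] {g d : F} (hg : g ^ 2 = g - 2) :
    (⟨Units.mk0 (1 / 2 : F) (by norm_num), -((g + 2) * d / 4), -(1 / 2), (g + 2) * d / 8⟩ :
      VariableChange F) • (⟨1, -((3 * d + 1) / 4), 0, -2 * d ^ 2, -d ^ 3⟩ : WeierstrassCurve F) =
      ⟨0, 3 * (1 - g) * (d - 2 * d * g), 0, g ^ 4 * (d - 2 * d * g) ^ 2, 0⟩ := by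
  have hu : (((Units.mk0 (1 / 2 : F) (by norm_num))⁻¹ : Fˣ) : F) = 2 := by
    simp
  ext
  · simp only [variableChange_a₁, hu]
    norm_num
  · simp only [variableChange_a₂, hu]
    linear_combination (-6 * d) * hg
  · simp only [variableChange_a₃, hu]
    ring
  · simp only [variableChange_a₄, hu]
    linear_combination ((-4 * g ^ 4 + 7 * g ^ 2 + 7 * g - 4) * d ^ 2) * hg
  · simp only [variableChange_a₆, hu]
    linear_combination ((-g - 10) * d ^ 3) * hg

lemma emb_em {L : Type} [CommRing L] {g : L} (hg : g ^ 2 = g - 2) (z : OK) :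
    emb g z = Pool.Agent.R384.em hg z := by
  rw [Pool.Agent.R384.em_apply]
  rfl

lemma tw_iso (hw : w ^ 2 = w - 2) (D : OK) : Iso (EK w D) (ED w (tw D)) := by
  have hg := gen_sq.2 hw
  have hemb : (emb (gen w) (tw D) : K w) =
      emb (gen w) D - 2 * emb (gen w) D * gen w := by
    rw [emb_em hg, emb_em hg]
    unfold tw
    rw [map_neg, map_mul]
    have h1 : Pool.Agent.R384.em hg sqrtNegSeven = 2 * gen w - 1 := by
      rw [Pool.Agent.R384.em_apply]
      simp only [sqrtNegSeven]
      push_cast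
      ring
    rw [h1]
    ring
  refine ⟨_, (gen_iso (d := emb (gen w) D) hg).trans ?_⟩
  unfold ED curve
  rw [hemb]

lemma s7_ne : sqrtNegSeven ≠ 0 := by
  intro h
  have h1 := congrArg QuadraticAlgebra.re h
  simp [sqrtNegSeven] at h1

lemma tw_ne {D : OK} (hD : D ≠ 0) : tw D ≠ 0 := neg_ne_zero.2 (mul_ne_zero s7_ne hD)

/-! ### The arithmetic of the class -/

open Pool.Agent.N848.W (Cls crit finrank_two NS EC Gd)

lemma adm_iff (D : OK) : Adm D ↔ Cls D :=
  ⟨fun h => ⟨h.1, h.2.1, h.2.2⟩, fun h => ⟨h.sqf, h.four, h.n7⟩⟩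

lemma ns_iff {F : Type} [Field F] [NumberField F] (d : F) :
    RankZeroShaTwo (twist d) ↔ NS (EC d) := Iff.rfl

/-- the criterion over `K` -/
lemma crit_K (hw : w ^ 2 = w - 2) {D : OK} (hD : Adm D) :
    (RankZeroShaTwo (EK w D) ↔ Pool.Agent.R426.QK.GoodE (Pool.Agent.N848.W.th D)) ∧
      (RankZeroShaTwo (EK w D) → Gd D) :=
  crit (gen_sq.2 hw) (finrank_two hw) ((adm_iff D).1 hD) rfl

lemma galL_eq {n : ℕ} (s : Fin n → QBar) : GalL w s = Pool.Agent.R384.fixs s Finset.univ := by
  ext σ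
  unfold GalL
  rw [IntermediateField.mem_fixingSubgroup_iff]
  constructor
  · intro h i _
    exact h (s i) (IntermediateField.subset_adjoin _ _ ⟨i, rfl⟩)
  · intro h x hx
    have h1 : IntermediateField.adjoin (K w) (Set.range s) ≤
        IntermediateField.fixedField (Pool.Agent.R384.fixs s Finset.univ) := by
      rw [IntermediateField.adjoin_le_iff]
      rintro _ ⟨i, rfl⟩
      rw [SetLike.mem_coe, IntermediateField.mem_fixedField_iff]
      intro f hf
      exact hf i (Finset.mem_univ i)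
    exact (IntermediateField.mem_fixedField_iff _ x).1 (h1 hx) σ h

/-- the transfer -/
lemma selmer_of {v : Pool.Agent.R384.OO} {χ : Chr w} {H : Sub w}
    (h : Pool.Agent.R384.VanOn hw v χ H) {v' : QBar} (hv : Pool.Agent.R384.em hw v = v') :
    SelmerZero v' H χ := by
  intro c hc hs
  obtain ⟨y, hy⟩ := h c ⟨hc.cont, hc.mul⟩ (fun p _ ι hp => hs.odd p ι hp) (fun ι hι => by
    rw [hv] at hι
    exact hs.two ι hι)
  exact ⟨y, fun σ _ h => hy σ h⟩

/-- the vanishing -/
lemma all_of (hw : w ^ 2 = w - 2) {M : OK} {n : ℕ} {d : Fin n → OK}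
    (hG : ∀ T : Finset (Fin n), ∃ D z : OK, z ≠ 0 ∧ Gd D ∧ M * ∏ i ∈ T, d i = D * z ^ 2) :
    AllWeights w M d := by
  have hM0 : M ≠ 0 := by
    obtain ⟨D, k, hk, hD, he⟩ := hG ∅
    rw [Finset.prod_empty, mul_one] at he
    rw [he]
    exact mul_ne_zero hD.sqf.ne_zero (pow_ne_zero 2 hk)
  have hd0 : ∀ i, d i ≠ 0 := by
    intro i
    obtain ⟨D, k, hk, hD, he⟩ := hG {i}
    rw [Finset.prod_singleton] at he
    exact right_ne_zero_of_mul (he ▸ mul_ne_zero hD.sqf.ne_zero (pow_ne_zero 2 hk))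
  have hD := tw_ne hM0
  refine ⟨tw_iso hw M, elliptic hD hw, ?_⟩
  have h : Pool.Agent.R384.WD w (Pool.Agent.R384.em hw (tw M)) := ⟨hw, Pool.Agent.R384.em_ne hw hD⟩
  obtain ⟨r, hr⟩ : ∃ r : QBar, r ^ 2 = Pool.Agent.R384.em hw (tw M) :=
    IsAlgClosed.exists_pow_nat_eq _ (by norm_num)
  obtain ⟨I, hI⟩ : ∃ I : QBar, I ^ 2 = -1 := IsAlgClosed.exists_pow_nat_eq _ (by norm_num)
  obtain ⟨u, hu⟩ : ∃ u : QBar, u ^ 2 = w - 1 := IsAlgClosed.exists_pow_nat_eq _ (by norm_num)
  obtain ⟨v, hv⟩ : ∃ v : QBar, v ^ 2 = -w := IsAlgClosed.exists_pow_nat_eq _ (by norm_num)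
  have fx : ∀ σ : Gal w, Pool.Agent.R384.Fx w (Pool.Agent.R384.em hw (tw M))
      (Pool.Agent.R384.rh σ) := fun σ =>
    ⟨Pool.Agent.Y715.Gi.gk_fix σ, Pool.Agent.R384.gk_em hw σ (tw M)⟩
  obtain ⟨κ, κ', x, y, kd, e1, e2, hx, hy, ax, ay⟩ :=
    Pool.Agent.N848.W.exists_ke hw hD h hr hI hu hv fx
  have td := Pool.Agent.R384.td h
  set T := tr (curve_eq hw (D := tw M)) with hT
  have hor : ∀ {p : ℕ} [Fact p.Prime] (ι : QBar →ₐ[ℚ] PadicAlgCl p) (s : QBar) (z : OK),
      s ^ 2 = Pool.Agent.R384.em hw z → ∀ σ : Gal w, σ s = s ∨ σ s = -s := fun ι s z hs σ =>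
    Pool.Agent.R384.rt_or hw hs σ
  have hIr : (I * r) ^ 2 = Pool.Agent.R384.em hw (-tw M) := by rw [mul_pow, hI, hr, map_neg]; ring
  refine ⟨κ, κ', ⟨⟨fun n => T.symm (y n), fun n => T.symm (x n), ⟨?_, ?_, ?_, ?_⟩,
    ⟨Units.continuous_val.comp kd.cont, fun σ => ?_⟩,
    ⟨Units.continuous_val.comp kd.cont', fun σ => ?_⟩⟩, ?_, ?_⟩, ?_⟩
  · show T.symm (y 0) = 0 ∧ T.symm (x 0) = 0
    rw [hx.zero, hy.zero, map_zero]
    exact ⟨rfl, rfl⟩
  · intro n
    show T.symm (y (n + 1)) + T.symm (y (n + 1)) = T.symm (y n) ∧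
      T.symm (x (n + 1)) + T.symm (x (n + 1)) = T.symm (x n)
    rw [← map_add, ← map_add, hx.dbl, hy.dbl]
    exact ⟨rfl, rfl⟩
  · intro n P hP
    have h1 : (2 ^ n : ℤ) • T P = 0 := by rw [← map_zsmul, hP, map_zero]
    obtain ⟨a, b, hab⟩ := Pool.Agent.R384.Tow.basis td hx hy h1
    refine ⟨b, a, ?_⟩
    apply T.injective
    show T P = T (b • T.symm (y n) + a • T.symm (x n))
    rw [map_add, map_zsmul, map_zsmul, T.apply_symm_apply, T.apply_symm_apply, hab, add_comm]
  · intro n a b hab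
    have h1 : T (a • T.symm (y n) + b • T.symm (x n)) = 0 := by
      show T ((fun n => a • T.symm (y n) + b • T.symm (x n)) n) = 0
      rw [show (fun n => a • T.symm (y n) + b • T.symm (x n)) n = 0 from hab, map_zero]
    rw [map_add, map_zsmul, map_zsmul, T.apply_symm_apply, T.apply_symm_apply, add_comm] at h1
    exact (Pool.Agent.R384.Tow.uniq td hx hy h1).symm
  · intro n k hk
    show act σ (T.symm (y n)) = k • T.symm (y n)
    apply T.injective
    rw [hT, tr_act hw h fx σ, ← hT, T.apply_symm_apply, map_zsmul, T.apply_symm_apply]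
    exact ay σ n k hk
  · intro n k hk
    show act σ (T.symm (x n)) = k • T.symm (x n)
    apply T.injective
    rw [hT, tr_act hw h fx σ, ← hT, T.apply_symm_apply, map_zsmul, T.apply_symm_apply]
    exact ax σ n k hk
  · rintro p _ ι hn σ ⟨τ, hτ, hin⟩
    have h1 := kd.inert p ι τ σ hτ hin hn
    unfold zv
    rcases hor ι _ _ hIr σ with h2 | h2
    · rw [h1.1 h2, Units.val_one, one_pow]
    · rw [h1.2 h2, Units.val_neg, Units.val_one, neg_one_sq]
  · rintro p _ ι hn σ ⟨τ, hτ, hin⟩
    have h1 := kd.inert' p ι τ σ hτ hin hn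
    unfold zv
    rcases hor ι _ _ hr σ with h2 | h2
    · rw [h1.1 h2, Units.val_one, one_pow]
    · rw [h1.2 h2, Units.val_neg, Units.val_one, neg_one_sq]
  · intro s hs k _ hk
    have hom : Pool.Agent.R384.em hw Pool.Agent.R384.om = w := by
      rw [Pool.Agent.R384.em_apply]
      simp [Pool.Agent.R384.om]
    have hom' : Pool.Agent.R384.em hw (1 - Pool.Agent.R384.om) = 1 - w := by
      rw [map_sub, map_one, hom]
    have hk' : Even (1 - k) := by
      rw [Int.even_sub]
      simp [Int.not_even_iff_odd.2 hk]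
    have hE : ∀ i, s i ^ 2 = Pool.Agent.R384.em hw (d i) := by
      intro i
      rw [hs i, emb_em hw]
    have hgood : ∀ T : Finset (Fin n), ∃ P z : OK, Gd P ∧ z ≠ 0 ∧
        tw M * ∏ i ∈ T, d i = -(Pool.Agent.R384.s7 * P) * z ^ 2 := by
      intro T
      obtain ⟨D, z, hz, hgd, he⟩ := hG T
      refine ⟨D, z, hgd, hz, ?_⟩
      have e7 : sqrtNegSeven = Pool.Agent.R384.s7 := rfl
      unfold tw
      rw [← e7]
      linear_combination (-sqrtNegSeven) * he
    rw [galL_eq]
    exact ⟨selmer_of hw (Pool.Agent.N848.W.vanMq hw hE kd e1 e2 hu hv hD hd0 hgood k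
        (Or.inr ⟨hk, rfl, rfl⟩)) hom',
      selmer_of hw (Pool.Agent.N848.W.vanMq hw hE kd e1 e2 hu hv hD hd0 hgood (1 - k)
        (Or.inl ⟨hk', rfl, rfl⟩)) hom⟩

lemma both_of (hw : w ^ 2 = w - 2) {D : OK} (hD : Gd D) : BothVanish w D := by
  refine ⟨all_of hw fun T => ⟨D, 1, one_ne_zero, hD, ?_⟩, all_of hw fun T => ?_⟩
  · rw [Finset.eq_empty_of_isEmpty T, Finset.prod_empty]
    ring
  · rcases T.eq_empty_or_nonempty with h | ⟨i, hi⟩
    · refine ⟨1, 1, one_ne_zero, Pool.Agent.N848.W.gd_one, ?_⟩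
      rw [h, Finset.prod_empty]
      ring
    · refine ⟨D, 1, one_ne_zero, hD, ?_⟩
      have h1 : T = {0} := by
        ext j
        rw [Subsingleton.elim j i, Finset.mem_singleton]
        exact ⟨fun _ => Subsingleton.elim _ _, fun _ => hi⟩
      rw [h1, Finset.prod_singleton]
      ring

/-! ### The proportions -/

lemma dens (hw : w ^ 2 = w - 2) : HasDensity (fun D => RankZeroShaTwo (EK w D)) c2 := by
  have h := Pool.Agent.N848.W.den
  refine h.congr fun X => ?_
  unfold count
  congr 3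
  · ext D
    simp only [Set.mem_ofPred_eq]
    refine and_congr Iff.rfl ⟨fun h1 => ?_, fun h1 => ((crit_K hw h1.1).1).1 h1.2⟩
    have h2 : Adm D := (adm_iff D).2 (Pool.Agent.N848.W.cls_th.1 h1.1)
    exact ⟨h2, ((crit_K hw h2).1).2 h1⟩
  · ext D
    simp only [Set.mem_ofPred_eq, and_true]
    exact and_congr Iff.rfl (adm_iff D).symm

lemma low (hw : w ^ 2 = w - 2) : ∃ δ : ℝ, 0 < δ ∧ ∀ᶠ X : ℕ in atTop,
    δ * X ≤ (count (fun D => RankZeroShaTwo (EK w D)) X : ℝ) := by
  obtain ⟨δ, hδ, h⟩ := Pool.Agent.N848.W.low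
  refine ⟨δ, hδ, ?_⟩
  filter_upwards [h] with X hX
  refine hX.trans (Nat.cast_le.2 (Set.ncard_le_ncard ?_ ?_))
  · rintro D ⟨h0, h1⟩
    have h2 : Adm D := (adm_iff D).2 (Pool.Agent.N848.W.cls_th.1 h1.1)
    exact ⟨h0, h2, ((crit_K hw h2).1).2 h1⟩
  · exact (Pool.Agent.N848.W.fin_nm X).subset fun D hD => hD.1

lemma densQ : HasDensityQ (fun D => RankZeroShaTwo (twist (D : ℚ))) (c / 2) := by
  have h := Pool.Agent.N818.TC.rz_prop
  refine h.congr fun X => ?_
  unfold countQ
  congr 3
  · ext D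
    simp only [Finset.mem_filter]
    refine and_congr Iff.rfl ⟨fun h1 => ⟨h1.1, ?_⟩, fun h1 => ⟨h1.1, ?_⟩⟩
    · exact ((Pool.Agent.N848.W.gd_rat h1.1.1 h1.1.2.1 h1.1.2.2).1).2 h1.2
    · exact ((Pool.Agent.N848.W.gd_rat h1.1.1 h1.1.2.1 h1.1.2.2).1).1 h1.2
  · ext D
    simp only [Finset.mem_filter, and_true]
    exact Iff.rfl

end proof

/-- **The Bloch–Kato Selmer groups of all odd weights for the quadratic twists of `X_0(49)`.** -/
theorem result :
    (∀ w : QBar, w ^ 2 = w - 2 →
      (∀ (M : OK) (n : ℕ) (d : Fin n → OK), Good w M d → AllWeights w M d) ∧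
      (∀ D : OK, Adm D → RankZeroShaTwo (EK w D) → BothVanish w D) ∧
      HasDensity (fun D => RankZeroShaTwo (EK w D)) c2 ∧
      (∃ δ : ℝ, 0 < δ ∧ ∀ᶠ X : ℕ in atTop,
        δ * X ≤ (count (fun D => RankZeroShaTwo (EK w D)) X : ℝ)) ∧
      (∀ (M : ℕ) (n : ℕ) (d : Fin n → ℕ), GoodQ M d → AllWeights w M fun i => (d i : OK)) ∧
      ∀ D : ℕ, AdmQ D → RankZeroShaTwo (twist (D : ℚ)) → BothVanish w D) ∧
    HasDensityQ (fun D => RankZeroShaTwo (twist (D : ℚ))) (c / 2) ∧
    0.288 < c2 ∧ c2 < 0.289 ∧ 0.4194 < c ∧ c < 0.4195 := by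
  refine ⟨fun w hw => ⟨fun M n d hG => all_of hw fun T => ?_, fun D hD h => ?_, dens hw, low hw,
    fun M n d hG => all_of hw fun T => ?_, fun D hD h => ?_⟩, densQ,
    Pool.Agent.R426.QK.MOM.t_C2.2.2.2.1, Pool.Agent.R426.QK.MOM.t_C2.2.2.2.2,
    Pool.Agent.Y948.CQ.t_C2.2.2.2.1, Pool.Agent.Y948.CQ.t_C2.2.2.2.2⟩
  · obtain ⟨D, z, hz, hD, hR, he⟩ := hG T
    exact ⟨D, z, hz, (crit_K hw hD).2 hR, he⟩
  · exact both_of hw ((crit_K hw hD).2 h)
  · obtain ⟨D, k, hk, hD, hR, he⟩ := hG T
    refine ⟨((D : ℤ) : OK), ((k : ℤ) : OK), ?_,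
      (Pool.Agent.N848.W.gd_rat hD.1 hD.2.1 hD.2.2).2 hR, ?_⟩
    · intro h1
      have h2 := congrArg QuadraticAlgebra.re h1
      simp at h2
      exact hk h2
    · have h1 := congrArg (fun x : ℕ => (x : OK)) he
      push_cast at h1 ⊢
      exact h1
  · have h1 := (Pool.Agent.N848.W.gd_rat hD.1 hD.2.1 hD.2.2).2 h
    rw [Int.cast_natCast] at h1
    exact both_of hw h1

end Pool.Agent.Results.MP_787500_nt.OddWeightsNaturalDensity
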