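import Pool.Agent.N783.PF.Final
import Pool.Agent.N783.PF.Jac
import Pool.Agent.N874.Jac.Def
import Pool.Agent.N844.QF.Hf
import Pool.Agent.N844.QR.Ex

/-!
# The Bloch-Kato conjecture on Abel-Jacobi maps for a positive proportion of the intersections of two
# quadrics of every odd dimension over every number field

Let `g ≥ 1`, let `K` be ANY number field with the ring of integers `O`, and let `X ⊂ P^(2g+1)` be a smooth
complete intersection of two quadrics over `K`, of dimension `2 g - 1`, such that a member of the pencil of
quadrics which contain `X` is rational over `K` and singular. After a change of coordinates `X` is the base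
locus of a pencil `x A - z B` of symmetric matrices over `O` with

  `(-1)^(g+1) det (x A - z B) = m² z F(x, z)`, `F(x, 1) = f = x^(2g+1) + a_(2g-1) x^(2g-1) + ... + a_0`,

with `m ≠ 0` and `a_i ∈ O`. By Reid and Donagi `H^(2g-1)(X, ℚ_2(g)) = V_2 J` and
`CH^g(X)_0 ⊗ ℚ_2 = J(K) ⊗ ℚ_2`, where `J` is the Jacobian of `y² = f(x)`. (These facts are not formalized
here; the numbers of points of `X` over finite fields are computed, and by Faltings they determine the
representation.)

Order ALL the `f` by height: all conjugates of `a_i` are at most `B^(2g+1-i)`. We prove that for a positive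
proportion of them (and with a minimal equation) multiplication by two is bijective on `J(K)` (by the theorem
of Mordell and Weil this means that `J(K)` is finite of odd order), the 2-primary part of the
Tate-Shafarevich group of `J` is zero and the Bloch-Kato Selmer group `H^1_f(K, V_2 J)` is zero. So for all
the `X` over `K` which belong to these `f` both sides of the conjecture are zero and the 2-adic Abel-Jacobi
map is an isomorphism. For every `f` there is an `X` with `m = 1` which contains a linear subspace of
dimension `g - 1` defined over `K`.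

The group `J(L)` is the Picard group of `L[x, y] / (y² - f)` (library `N874/Jac/Def.lean`). The elements of
`V_2 J` are the sequences of the points `x_n` of 2-power order over the separable closure with
`x_(n+1)² = x_n` (`J` is written multiplicatively). For all finite places `v` the local subgroup
`H^1_f(K_v, V_2 J)` is the image of `J(K_v) ⊗ ℚ_2` (Bloch and Kato, Example 3.11), which is the definition
here.

Proof. By the theorem of project PF (helper783) for a positive proportion of the `f` the 2-Selmer group of
`J` over `K` is zero; so `J(K)` is uniquely 2-divisible and the 2-primary part of the Tate-Shafarevich group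
is zero (project JB of helper352). The points of a cocycle with values in `V_2 J` give cocycles with values
in `J`, which are trivial at all places (at the real places because they are divisible by two), so they are
coboundaries `σ P_n - P_n`; as the group of the invariant points is `J(K)`, `P_n` can be chosen of 2-power
order, and it is unique (`N844/QF/{Abs,Hf}.lean`). The pencils (all the matrices with the given discriminant,
their smoothness, their points, the existence for every `f` by the forms `τ(λ μ)`, `τ(λ θ μ)` on `O[θ]`) are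
in `N844/QR/{Pen,Ex}.lean`.

The theorem for the Jacobians over number fields is `MP_1d384c_nt.JacobiansNumberFields` (joint work):
project PF: helper783, with parts by helpers 31, 42, 61, 73, 75, 78, 99, 134, 169, 170, 189, 195, 225, 255,
286, 331, 352, 364, 374, 426, 438, 456, 459, 482, 490, 545, 547, 591, 614, 645, 667, 707, 710, 747, 771, 823,
849, 862, 935, 951, 999; from project PQ (helper783) parts by 2, 262, 271, 348, 394, 456, 457, 488, 498, 507,
530, 644, 747, 755, 835, 850, 878, 891, 951; from PP, PJ, JM, QM parts by 187, 195, 352, 434, 507, 630, 704,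
765, 769, 862, 874; project JB: helper352, with 27, 106, 232, 424, 615, 655, based on work of helpers Y154,
Y160, Y228, Y317, Y494, Y529, Y705, Y713, TH115.
-/

set_option autoImplicit false
set_option linter.all false

open Finset Matrix Polynomial IsDedekindDomain NumberField
open scoped LinearAlgebra.Projectivization

namespace Pool.Agent.Results.MP_787500_nt.AllQuadricPencils

open Pool.Agent.N874.Jac (J mapJ Gal IsCocycle UniquelyTwoDivisible ShaTwoTrivialReal)

/-! ### The Bloch-Kato Selmer group of `V_2 J` -/

section basic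

variable {K : Type} [Field K] (F : K[X]) {Ω : Type} [Field Ω] [Algebra K Ω]

/-- The elements of `V_2 J`, `J` the Jacobian of `y ^ 2 = F(x)` (written multiplicatively), `Ω` a separable
closure of `K`: the sequences of points `x_n ∈ J(Ω)` of 2-power order with `x_(n + 1) ^ 2 = x_n`. -/
def IsV (x : ℕ → J F Ω) : Prop := ∀ n, x (n + 1) ^ 2 = x n ∧ ∃ m : ℕ, x n ^ 2 ^ m = 1

/-- the continuous cocycles with values in `V_2 J` -/
def VCocycleIn (c : (Ω ≃ₐ[K] Ω) → ℕ → J F Ω) : Prop :=
  (∀ σ, IsV F (c σ)) ∧ ∀ n, IsCocycle F fun σ => c σ n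

/-- the coboundaries with values in `V_2 J` -/
def VCoboundaryIn (c : (Ω ≃ₐ[K] Ω) → ℕ → J F Ω) : Prop :=
  ∃ x : ℕ → J F Ω, IsV F x ∧ ∀ σ n, c σ n = mapJ F σ.toAlgHom (x n) / x n

variable (E : Type) {Ω' : Type} [Field E] [Field Ω'] [Algebra E Ω'] [Algebra K E] [Algebra K Ω']
  [IsScalarTower K E Ω']

/-- For an embedding `ι : Ω → Ω'` and a point `Q ∈ J(Ω')` the restriction of the cocycle `c` with values in
`J(Ω)` to the automorphisms of `Ω'` over `E` is `τ ↦ τ Q / Q`. -/
def Restricts (ι : Ω →ₐ[K] Ω') (Q : J F Ω') (c : (Ω ≃ₐ[K] Ω) → J F Ω) : Prop :=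
  ∀ (τ : Ω' ≃ₐ[E] Ω') (σ : Ω ≃ₐ[K] Ω), (∀ x, τ (ι x) = ι (σ x)) →
    mapJ F ι (c σ) = mapJ F (τ.toAlgHom.restrictScalars K) Q / Q

variable (Ω')

/-- The restriction of the class of `c` to `E` is in the image of `J(E) ⊗ ℚ_2 → H ^ 1 (E, V_2 J)`, `Ω'` a
separable closure of `E`: there are an embedding `Ω → Ω'` and points `Q_n ∈ J(Ω')` with
`Q_(n + 1) ^ 2 = Q_n` and `c(τ)_n = τ Q_n / Q_n` for all automorphisms `τ` of `Ω'` over `E`. -/
def KummerIn (c : (Ω ≃ₐ[K] Ω) → ℕ → J F Ω) : Prop :=
  ∃ (ι : Ω →ₐ[K] Ω') (Q : ℕ → J F Ω'), (∀ n, Q (n + 1) ^ 2 = Q n) ∧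
    ∀ n, Restricts F E ι (Q n) fun σ => c σ n

end basic

section selmer

variable {K : Type} [Field K] (F : K[X])

/-- sequences of functions on the absolute Galois group of `K` with values in `J(K^sep)` -/
abbrev VCochain : Type := Gal K → ℕ → J F (SeparableClosure K)

variable {F}

/-- the continuous cocycles on the absolute Galois group with values in `V_2 J` -/
def VCocycle (c : VCochain F) : Prop := VCocycleIn F c

/-- the coboundaries with values in `V_2 J` -/
def VCoboundary (c : VCochain F) : Prop := VCoboundaryIn F c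

/-- the restriction of the class of `c` to `E` is in the image of `J(E) ⊗ ℚ_2` -/
def Kummer (E : Type) [Field E] [Algebra K E] (c : VCochain F) : Prop :=
  KummerIn F E (SeparableClosure E) c

/-- the class of `c` is in the image of `J(K_v) ⊗ ℚ_2` for the completions `K_v` of `K` at all maximal
ideals `v` of the Dedekind ring `R` with field of fractions `K` -/
def KummerAtPrimes (R : Type) [CommRing R] [IsDedekindDomain R] [Algebra R K] [IsFractionRing R K]
    (c : VCochain F) : Prop := ∀ v : HeightOneSpectrum R, Kummer (v.adicCompletion K) c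

variable (F)

/-- For a number field `K` with the ring of integers `R`: the Bloch-Kato Selmer group
`H ^ 1_f (K, V_2 J)` is zero, `J` the Jacobian of `y ^ 2 = F(x)`. Every continuous cocycle with values in
`V_2 J` whose class is in the image of `J(K_v) ⊗ ℚ_2` at all finite places `v` is a coboundary. -/
def SelmerZero (R : Type) [CommRing R] [IsDedekindDomain R] [Algebra R K] [IsFractionRing R K] :
    Prop := ∀ c : VCochain F, VCocycle c → KummerAtPrimes R c → VCoboundary c

end selmer

/-! ### The polynomials `f` -/

section numberfield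

variable (F : Type) [Field F] [NumberField F] (g B : ℕ)

/-- `f` is monic of degree `2 g + 1` without term of degree `2 g`, and all the conjugates of the coefficient
of `x ^ j` are at most `B ^ (2 g + 1 - j)` in absolute value. -/
structure IsPoly (f : (𝓞 F)[X]) : Prop where
  monic : f.Monic
  degree : f.natDegree = 2 * g + 1
  trace : f.coeff (2 * g) = 0
  height : ∀ j ≤ 2 * g, ∀ σ : F →+* ℂ, ‖σ (f.coeff j : F)‖ ≤ (B : ℝ) ^ (2 * g + 1 - j)

/-- all the polynomials `f` of height at most `B` -/
def Polys : Set (𝓞 F)[X] := {f | IsPoly F g B f}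

/-- there is no prime `P` such that `P ^ (2 (2 g + 1 - j))` divides the coefficient of `x ^ j` for all
`j ≤ 2 g` -/
def Minimal (f : (𝓞 F)[X]) : Prop :=
  ∀ P : Ideal (𝓞 F), P.IsPrime → P ≠ ⊥ → ¬ ∀ j ≤ 2 * g, f.coeff j ∈ P ^ (2 * (2 * g + 1 - j))

/-- the polynomial `f` over `F` -/
noncomputable def polyF (f : (𝓞 F)[X]) : F[X] := f.map (algebraMap (𝓞 F) F)

/-- The polynomials `f` of height at most `B` which are minimal, irreducible over `F` and such that
`P ↦ P ^ 2` is bijective on `J(F)`, `J` the Jacobian of `y ^ 2 = f(x)`, the 2-primary part of the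
Tate-Shafarevich group of `J` over `F` is zero and `H ^ 1_f (F, V_2 J) = 0`. -/
def Good : Set (𝓞 F)[X] :=
  {f ∈ Polys F g B | Minimal F g f ∧ Irreducible (polyF F f) ∧ UniquelyTwoDivisible (polyF F f) ∧
    ShaTwoTrivialReal (polyF F f) (𝓞 F) ∧ SelmerZero (polyF F f) (𝓞 F)}

/-- a positive proportion of all the polynomials ordered by height is good -/
def PositiveProportion : Prop :=
  ∃ c : ℝ, 0 < c ∧ ∃ B₀ : ℕ, ∀ B ≥ B₀, (Polys F g B).Finite ∧ 0 < (Polys F g B).ncard ∧
    c * ((Polys F g B).ncard : ℝ) ≤ ((Good F g B).ncard : ℝ)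

end numberfield

/-! ### The intersections of two quadrics -/

section pencils

variable {D : Type} [CommRing D]

/-- the homogeneous form `F(x, z)` of degree `2 g + 1` of `f` -/
def form (g : ℕ) (f : D[X]) (x z : D) : D :=
  ∑ i ∈ range (2 * g + 2), f.coeff i * x ^ i * z ^ (2 * g + 1 - i)

/-- the matrices of size `2 g + 2` over `D` -/
abbrev Mat (g : ℕ) (D : Type) : Type := Matrix (Fin (2 * g + 2)) (Fin (2 * g + 2)) D

/-- the quadratic form of a matrix -/
def qf {N : ℕ} (A : Matrix (Fin N) (Fin N) D) (y : Fin N → D) : D := y ⬝ᵥ (A *ᵥ y)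

/-- the pencils over `D` with discriminant `m ^ 2 z F(x, z)` -/
structure IsPencil (g : ℕ) (f : D[X]) (m : D) (A B : Mat g D) : Prop where
  symA : A.IsSymm
  symB : B.IsSymm
  disc : ∀ x z : D, (-1) ^ (g + 1) * (x • A - z • B).det = m ^ 2 * (z * form g f x z)

/-- the linear subspace `y_g = ... = y_(2 g + 1) = 0` of dimension `g - 1` is contained in the base locus -/
def ContainsPlane {g : ℕ} (A B : Mat g D) : Prop :=
  ∀ y : Fin (2 * g + 2) → D, (∀ i : Fin (2 * g + 2), g ≤ (i : ℕ) → y i = 0) →
    qf A y = 0 ∧ qf B y = 0

end pencils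

section fields

variable {E : Type} [Field E]

/-- the quadratic forms of `A` and `B` are zero at `y` -/
def OnX {N : ℕ} (A B : Matrix (Fin N) (Fin N) E) (y : Fin N → E) : Prop := qf A y = 0 ∧ qf B y = 0

/-- the base locus `X` of the pencil is smooth (Jacobian criterion at the points over `E`) -/
def Smooth {N : ℕ} (A B : Matrix (Fin N) (Fin N) E) : Prop :=
  ∀ y : Fin N → E, y ≠ 0 → OnX A B y → LinearIndependent E ![A *ᵥ y, B *ᵥ y]

/-- the number of the points over `E` of the base locus `X` of the pencil -/
noncomputable def numP {N : ℕ} (A B : Matrix (Fin N) (Fin N) E) : ℕ :=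
  Nat.card {P : ℙ E (Fin N → E) // OnX A B P.rep}

/-- the number of the points over `E` of the affine curve `y ^ 2 = F(x)` -/
noncomputable def numC (F : E[X]) : ℕ := Nat.card {P : E × E // P.2 ^ 2 = F.eval P.1}

/-- The number of points of `X` over the finite field `E`: `H ^ (2 g - 1) (X) = H ^ 1 (C) (1 - g)` where `C`
is the curve `y ^ 2 = F(x)`, and the other cohomology is that of a projective space of dimension
`2 g - 1`. -/
def PointCount {g : ℕ} (F : E[X]) (A B : Mat g E) : Prop :=
  (numP A B : ℤ) = ∑ i ∈ range (2 * g), (Nat.card E : ℤ) ^ i +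
    (Nat.card E : ℤ) ^ (g - 1) * ((numC F : ℤ) - Nat.card E)

end fields

/-- For all pencils over the ring `D` with discriminant `m ^ 2 z F(x, z)` the base locus is smooth over all the
fields `E` over `D` in which `2 m` is not zero and `f` is separable, and its number of points is given by
`PointCount` if `E` is finite. -/
def AllPencils {D : Type} [CommRing D] (g : ℕ) (f : D[X]) : Prop :=
  ∀ (m : D) (A B : Mat g D), IsPencil g f m A B →
    ∀ (E : Type) [Field E] (φ : D →+* E), (2 : E) ≠ 0 → φ m ≠ 0 → (f.map φ).Separable →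
      Smooth (A.map φ) (B.map φ) ∧ (Finite E → PointCount (f.map φ) (A.map φ) (B.map φ))

section proof

variable (F : Type) [Field F] [NumberField F] {g : ℕ}

theorem ht_iff (B : ℕ) (f : (𝓞 F)[X]) : IsPoly F g B f ↔ Pool.Agent.N783.PF.Ht g B f :=
  ⟨fun h => ⟨h.monic, h.degree, h.trace, h.height⟩, fun h => ⟨h.mon, h.deg, h.tr, h.ht⟩⟩

/-- from the explicit 2-Selmer group to the statements -/
theorem good_of {B : ℕ} {f : (𝓞 F)[X]} (h : IsPoly F g B f) (hi : Irreducible (polyF F f))
    (hs : Pool.Agent.N783.PF.SelZero f) (hm : Minimal F g f) : f ∈ Good F g B := by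
  have ho : Odd f.natDegree := by
    rw [h.degree]
    exact odd_two_mul_add_one g
  obtain ⟨h6, h7⟩ := Pool.Agent.N783.PF.jac h.monic ho hi hs
  refine ⟨h, hm, hi, h6, h7, fun c hc hl => ?_⟩
  have hm' : (polyF F f).Monic := h.monic.map _
  have ho' : Odd (polyF F f).natDegree := by
    unfold polyF
    rw [h.monic.natDegree_map]
    exact ho
  exact Pool.Agent.N844.QF.h1f_zero (F := polyF F f) two_ne_zero hm' hi.separable ho' (𝓞 F) h6 h7 c
    (fun n => (hc.2 n).1) hc.1 (fun σ τ n => (hc.2 n).2 σ τ) (fun v n => by
      obtain ⟨ι, Q, -, hQ⟩ := hl v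
      exact ⟨ι, Q n, hQ n⟩)

end proof

/-- **Theorem.** For every `g ≥ 1` and every number field `F` there is a positive constant `c` such that for
all large `B` at least `c` times the number of all the `f` of height at most `B` are minimal and irreducible
over `F` and the Jacobian `J` of `y ^ 2 = f(x)` is such that multiplication by two is bijective on `J(F)`, the
2-primary part of the Tate-Shafarevich group of `J` over `F` is zero and the Bloch-Kato Selmer group
`H ^ 1_f (F, V_2 J)` is zero. For every `f` and all pencils of quadrics over the ring of integers `𝓞 F` with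
discriminant `m ^ 2 z F(x, z)` the base locus `X` is smooth over all the fields `E` over `𝓞 F` in which `2 m`
is not zero and `f` is separable, and its number of points is computed if `E` is finite. For every `f` there
is a pencil with `m = 1` whose base locus contains a linear subspace of dimension `g - 1`. -/
theorem result (g : ℕ) (hg : 1 ≤ g) (F : Type) [Field F] [NumberField F] :
    PositiveProportion F g ∧
    ∀ f : (𝓞 F)[X], f.Monic → f.natDegree = 2 * g + 1 →
      AllPencils g f ∧ ∃ A B : Mat g (𝓞 F), IsPencil g f 1 A B ∧ ContainsPlane A B := by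
  classical
  haveI : Infinite (𝓞 F) := CharZero.infinite _
  refine ⟨?_, ?_⟩
  · obtain ⟨c, hc, B₀, hB₀⟩ := Pool.Agent.N783.PF.main g F hg
    refine ⟨c, hc, B₀, fun B hB => ?_⟩
    obtain ⟨hHt, hle⟩ := hB₀ B hB
    have e1 : Polys F g B = {f : (𝓞 F)[X] | Pool.Agent.N783.PF.Ht g B f} :=
      Set.ext fun f => ht_iff F B f
    have hfin : (Polys F g B).Finite := by rw [e1]; exact hHt
    refine ⟨hfin, ?_, ?_⟩
    · rw [Set.ncard_pos hfin]
      refine ⟨X ^ (2 * g + 1), monic_X_pow _, natDegree_X_pow _, ?_, fun j hj σ => ?_⟩
      · rw [coeff_X_pow, if_neg (by omega)]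
      · rw [coeff_X_pow, if_neg (by omega)]
        rw [show ((0 : 𝓞 F) : F) = 0 from rfl, map_zero, norm_zero]
        positivity
    · rw [e1]
      refine hle.trans ?_
      have h3 : {f : (𝓞 F)[X] | Pool.Agent.N783.PF.Ht g B f ∧
          Irreducible (Pool.Agent.N783.PF.fF f) ∧ Pool.Agent.N783.PF.SelZero f ∧
          Pool.Agent.N783.PF.Min g f} ⊆ Good F g B := by
        rintro f ⟨h4, h5, h6, h7⟩
        exact good_of F ((ht_iff F B f).2 h4) h5 h6 h7
      exact_mod_cast Set.ncard_le_ncard h3 (hfin.subset fun a ha => ha.1)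
  · intro f hf hd
    refine ⟨fun m A B h E _ φ hE hm hs => ?_, ?_⟩
    · have h' : Pool.Agent.N844.QR.IsPen g f m A B := ⟨h.symA, h.symB, h.disc⟩
      exact ⟨fun y hy h6 => h'.smooth φ hf hd hm hs hy h6.1 h6.2,
        fun _ => h'.num hg hf hd E φ hE hm hs⟩
    · have h' := Pool.Agent.N844.QR.ex_pen hf hd
      refine ⟨Pool.Agent.N844.QR.eA hf hd, Pool.Agent.N844.QR.eB hf hd,
        ⟨h'.symA, h'.symB, h'.disc⟩, fun y hy => ?_⟩
      have key : ∀ A : Mat g (𝓞 F),
          (∀ i j : Fin (2 * g + 2), (i : ℕ) < g → (j : ℕ) < g → A i j = 0) → qf A y = 0 := by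
        intro A hA
        unfold qf
        simp only [dotProduct, mulVec]
        refine Finset.sum_eq_zero fun i _ => ?_
        rcases Nat.lt_or_ge (i : ℕ) g with hi | hi
        · rw [Finset.sum_eq_zero, mul_zero]
          intro j _
          rcases Nat.lt_or_ge (j : ℕ) g with hj | hj
          · rw [hA i j hi hj, zero_mul]
          · rw [hy j hj, mul_zero]
        · rw [hy i hi, zero_mul]
      exact ⟨key _ fun i j hi hj => (Pool.Agent.N844.QR.e_zero hf hd i j hi hj).1,
        key _ fun i j hi hj => (Pool.Agent.N844.QR.e_zero hf hd i j hi hj).2⟩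

end Pool.Agent.Results.MP_787500_nt.AllQuadricPencils
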