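import Mathlib
import Pool.Agent.N883.FG.Bk2
import Pool.Agent.N883.FF.End

/-!
# The conjecture of Bloch and Kato on the Abel–Jacobi map for diagonal cubic curves, threefolds and
# fivefolds over `K = ℚ(√-3)`, `p = 3`, for a majority of ALL the classes of elements prime to `3`

`K` is the field of the third roots of unity.  `D` runs through the cube-free nonunits of `𝓞 K` that
are congruent to a third root of unity modulo `3`: these are representatives of all the classes of
`K^* / (K^*)³` that contain an element prime to `3` (except the classes of the units).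

For `c = 0, 1, 2` let `X_a` be the smooth cubic hypersurface `a_0 x_0³ + … + a_{2c+2} x_{2c+2}³ = 0` of
dimension `n = 2 c + 1` over a number field `L`.  For a set `T` of `c` indices let
`δ_T = ∏ a_i ∏_{i ∈ T} a_i`, and let `E_δ` be the curve `y² + δ y = x³`.

* For every `a` and at all the places `v` of `L` not dividing `3 ∏ a_i` the numbers of points of `X_a` over
  all the finite extensions of the residue field are those of `H^n(X_a) = ⊕_T H^1(E_{δ_T})(-c)`.
* Let `D` be in the family, outside of one of the nine classes modulo cubes of the completion at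
  `√-3`, and suppose that `E_D(K)` is finite and `Ш(E_D / K)[3^∞] = 0`.  The proportion of these `D` among
  ALL the `D` tends to `8 / 9 * ∏_{i ≥ 0} (1 - 3^{-(2 i + 1)}) = 0.5680...`.  Then for ALL the `a` with
  coefficients in the group generated by `D` and the cubes of `K^*`, and for `L = K` as well as for
  every cubic extension `L = K(∛D)`, the groups `E(L) ⊗ ℚ_3` and `H¹_f(L, V_3 E)` are zero for all the
  curves `E = E_{δ_T}`, `#T = c`.

By the first point and by Faltings, `V = H^n(X_a, ℚ_3(c + 1))` is the direct sum of the `V_3 E_{δ_T}`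
and the intermediate Jacobian `J` of `X_a` is isogenous to the product of the `E_{δ_T}`; and
`CH^{c+1}(X_a)_0 ⊗ ℚ_3 = J(L) ⊗ ℚ_3` (Bloch–Murre for the threefolds, Collino and Paranjape for the
fivefolds); this is not formalized.  So `CH^{c+1}(X_a)_0 ⊗ ℚ_3 = 0 = H¹_f(L, V)`: the conjecture holds for
`p = 3` and all the motives `M = (X_a, e, c + 1)`, `e` any idempotent, over these `L`.

`H1f 3 W` (`Pool.Agent.Y667.BKP.H1f`, by helper667) is the group of the classes of the continuous
cocycles of the absolute Galois group with values in `V_3 W = T_3 W ⊗ ℚ_3` whose restriction to the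
completion at every place is in the image of the Kummer map; this is the condition of Bloch and Kato.

The starting file `MP_009fd8_ag.CubeFreeCubicTwists` has the curves `E_D` for `D = 1` modulo `3` with norm not `1`
modulo `9`.  Joint work; see the headers of `Pool/Agent/N883/FF/End.lean` and of the files imported there.
-/

set_option autoImplicit false

namespace Pool.Agent.Results.MP_787500_nt.MajorityDiagonalCubics

open NumberField IsDedekindDomain WeierstrassCurve
open Pool.Agent.TH841.NF.D (Sha)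
open Pool.Agent.Y667.BKP (H1f)
open scoped Classical

/-- The curve `E_D : y² + D y = x³`. -/
def curve {F : Type} [Field F] (D : F) : WeierstrassCurve F := ⟨0, 0, D, 0, 0⟩

/-- The solutions, not all zero, of `∑ a i x i ^ 3 = 0` in the field `F`. -/
def solutions {m : ℕ} {F : Type} [Field F] (a : Fin m → F) : Set (Fin m → F) :=
  {x | x ≠ 0 ∧ ∑ i, a i * x i ^ 3 = 0}

/-- `δ_T = ∏ a i ∏_{i ∈ T} a i`. -/
def twist {m : ℕ} {R : Type} [CommRing R] (a : Fin m → R) (T : Finset (Fin m)) : R :=
  (∏ i, a i) * ∏ i ∈ T, a i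

/-- `X_a` has the dimension `n = 2 c + 1`.  Let `β T` and its complex conjugate be the eigenvalues of the
Frobenius of the curve `y² + δ_T y = x³` over the residue field of `v`, which has `N` elements.  Then
for all the fields `F` with `N ^ r` elements that contain the residue field (`f` is the reduction)
the number of the nonzero solutions in `F` of the equation of `X_a` is
`(#F - 1) (1 + #F + ... + #F^n - ∑ ((N^c β T)^r + (N^c conj (β T))^r))`, the sum over all the sets
`T` of `c` indices. -/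
def Decomposition {L : Type} [Field L] [NumberField L] (c : ℕ) (a : Fin (2 * c + 3) → 𝓞 L)
    (v : HeightOneSpectrum (𝓞 L)) : Prop :=
  ∃ β : Finset (Fin (2 * c + 3)) → ℂ,
    (∀ T, β T * (starRingEnd ℂ) (β T) = Ideal.absNorm v.asIdeal ∧
      (Nat.card {P : (𝓞 L ⧸ v.asIdeal) × (𝓞 L ⧸ v.asIdeal) //
        P.2 ^ 2 + Ideal.Quotient.mk v.asIdeal (twist a T) * P.2 = P.1 ^ 3} : ℂ) =
          Ideal.absNorm v.asIdeal - (β T + (starRingEnd ℂ) (β T))) ∧
    ∀ (F : Type) [Field F] [Finite F] (f : 𝓞 L →+* F) (r : ℕ), RingHom.ker f = v.asIdeal →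
      Nat.card F = Ideal.absNorm v.asIdeal ^ r →
      ((solutions fun i => f (a i)).ncard : ℂ) = (Nat.card F - 1) *
        (∑ i ∈ Finset.range (2 * c + 2), (Nat.card F : ℂ) ^ i -
          ∑ T ∈ (Finset.univ : Finset (Fin (2 * c + 3))).powersetCard c,
            (((Ideal.absNorm v.asIdeal : ℂ) ^ c * β T) ^ r +
              ((Ideal.absNorm v.asIdeal : ℂ) ^ c * (starRingEnd ℂ) (β T)) ^ r))

/-- `W` is an elliptic curve, and `W(F) ⊗ ℚ_3` and `H¹_f(F, V_3 W)` are zero. -/
def BothZero {F : Type} [Field F] [NumberField F] (W : WeierstrassCurve F) : Prop :=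
  W.IsElliptic ∧ (∀ x : TensorProduct ℤ W.toAffine.Point ℚ_[3], x = 0) ∧ ∀ x : H1f 3 W, x = 0

/-- The cohomology of `X_a` over `L` decomposes at all the places not dividing `3 ∏ a i`, and both sides
of the conjecture are zero for all the curves `E_{δ_T}`, `#T = c`. -/
def Settled (L : Type) [Field L] [NumberField L] (c : ℕ) (a : Fin (2 * c + 3) → 𝓞 L) : Prop :=
  (∀ v : HeightOneSpectrum (𝓞 L), (3 : 𝓞 L) ∉ v.asIdeal → (∀ i, a i ∉ v.asIdeal) →
    Decomposition c a v) ∧
  ∀ T : Finset (Fin (2 * c + 3)), T.card = c → BothZero (curve ((twist a T : 𝓞 L) : L))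

/-- `a` is in the group generated by `D` and the cubes. -/
def InGroup {R : Type} [CommRing R] (D a : R) : Prop :=
  ∃ (m : ℕ) (y z : R), y ≠ 0 ∧ z ≠ 0 ∧ a * y ^ 3 = D ^ m * z ^ 3

variable {K : Type} [Field K] [NumberField K]

/-- `D` is a cube-free nonunit, congruent to a third root of unity modulo `3`. -/
def InFamily (D : 𝓞 K) : Prop :=
  ¬ IsUnit D ∧ (∀ x : 𝓞 K, x ^ 3 ∣ D → IsUnit x) ∧ ∃ ω : 𝓞 K, ω ^ 3 = 1 ∧ (3 : 𝓞 K) ∣ D - ω

/-- The exceptional class: `D` is `1` modulo `3` and its norm is `1` modulo `9`. -/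
def Exceptional (D : 𝓞 K) : Prop := (3 : 𝓞 K) ∣ D - 1 ∧ (9 : ℤ) ∣ Algebra.norm ℤ D - 1

/-- `E_D(K)` is finite and the `3`-primary part of `Ш(E_D / K)` is trivial. -/
def FiniteAndTrivial (D : 𝓞 K) : Prop :=
  Finite (curve (D : K)).toAffine.Point ∧ ∀ (n : ℕ) (x : Sha (curve (D : K))), 3 ^ n • x = 0 → x = 0

theorem result (K : Type) [Field K] [NumberField K] [IsCyclotomicExtension {3} ℚ K] :
    (∃ c : ℝ, 0 < c ∧ ∃ X₀ : ℕ, ∀ X : ℕ, X₀ ≤ X →
      c * X ≤ ({D : 𝓞 K | Algebra.norm ℤ D ≤ X ∧ InFamily D}.ncard : ℝ)) ∧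
    Filter.Tendsto (fun X : ℕ =>
      ({D : 𝓞 K | Algebra.norm ℤ D ≤ X ∧ InFamily D ∧ ¬ Exceptional D ∧
        FiniteAndTrivial D}.ncard : ℝ) /
        ({D : 𝓞 K | Algebra.norm ℤ D ≤ X ∧ InFamily D}.ncard : ℝ)) Filter.atTop
      (nhds (8 / 9 * ∏' i : ℕ, (1 - (1 / 3 : ℝ) ^ (2 * i + 1)))) ∧
    (0.568 : ℝ) < 8 / 9 * ∏' i : ℕ, (1 - (1 / 3 : ℝ) ^ (2 * i + 1)) ∧
    ∀ D : 𝓞 K, InFamily D → ¬ Exceptional D →
      (∃ (F : Type) (_ : Field F) (_ : NumberField F) (_ : Algebra K F) (θ : F),
        Module.finrank K F = 3 ∧ θ ^ 3 = algebraMap K F D) ∧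
      (FiniteAndTrivial D → ∀ c : ℕ, c ≤ 2 → ∀ a : Fin (2 * c + 3) → 𝓞 K,
        (∀ i, InGroup D (a i)) → Settled K c a ∧
          ∀ (F : Type) [Field F] [NumberField F] [Algebra K F] (θ : F),
            Module.finrank K F = 3 → θ ^ 3 = algebraMap K F D →
              Settled F c (fun i => algebraMap (𝓞 K) (𝓞 F) (a i))) := by
  obtain ⟨h1, h2, h3, h4⟩ := Pool.Agent.N883.FF.finalB K
  refine ⟨h1, h3, h4, fun D hD hx => ⟨?_, fun ht c hc a ha => ?_⟩⟩
  · obtain ⟨-, -, a3, -, -⟩ := h2 D hD hx
    exact a3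
  · exact Pool.Agent.N883.FG.finalBK Pool.Agent.N883.FF.partsB K h2 hD hx ht c hc a ha

end Pool.Agent.Results.MP_787500_nt.MajorityDiagonalCubics
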