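import Pool.Agent.N844.QG.T17

/-!
# The conjecture of Bloch and Kato on the Abel–Jacobi map for all quadratic twists of a threefold, `p = 2`

`E_a : y² = x³ - 91 a² x - 330 a³ = (x + 5a) (x + 6a) (x - 11a)` is the quadratic twist by `a` of the curve
`y² = x (x + 1) (x - 16)` of conductor `17` (no complex multiplication). We consider smooth complete
intersections `X ⊂ P⁵` of two quadrics, the base loci of the pencils with the discriminant curve
`C : y² = -4641 b (x² + 4352 ab) (x² - 289 ab) (x² + 78608 ab)`, whose Jacobian `J` is isogenous to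
`E_a × E_b`, over ALL multiquadratic fields `K = ℚ(√d_1, …, √d_r)`, real and imaginary, of any degree
`2 ^ r` (`r = 0`: `K = ℚ`).

Let `(a, b)` be good over `K`: the curves `E_{a d_T}`, `E_{b d_T}`, `d_T = ∏_{t ∈ T} d_t`, have finitely many
rational points and no element of order two in the Tate-Shafarevich group over `ℚ`. Then
* `E(K) ⊗ ℚ_2`, `H⁰(K, V_2 E)` and `H¹_f(K, V_2 E)` are zero for `E = E_a` and `E = E_b`;
* for ALL pencils as above `X` is smooth and for all the places `v` of `K` not dividing `9282 a b m` the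
  traces of the powers of Frobenius on `H³(X)`, given by the numbers of points of `X` over all finite
  extensions of the residue field, are those on `(H¹(E_a) ⊕ H¹(E_b))(-1)`.

So (Faltings, Chebotarev) `V = H³(X, ℚ_2(2)) = V_2 E_a ⊕ V_2 E_b` and `H¹_f(K, V) = 0`; and
`CH²(X)_0 ⊗ ℚ_2 = J(K) ⊗ ℚ_2 = 0` (Reid, Donagi, Bloch–Murre): this is not formalized.

For every `a` there is an explicit `X_a` with `a = b`, the twist by `a` of `X_1`. The natural density of the
`a` that are good over `ℚ` among ALL squarefree integers is `(1/2) ∏_{i ≥ 1} (1 - 2^{-(2i-1)}) = 0.2097…`, in the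
ordering by `|a|` and by the discriminant of `ℚ(√a)`; and `(1, 1)` is good over `ℚ(√a)` for exactly these
`a`: so the conjecture holds for the fixed threefold `X_1` over `20.97` percent of all quadratic fields.

`H1f 2 W` (`Pool.Agent.Y667.BKP.H1f`, by helper667) is the group of the classes of the continuous
cocycles of the absolute Galois group with values in `V_2 W` (`IsV 2 W`) whose restriction to the
completion at every place is in the image of the Kummer map; this is the condition of Bloch and Kato.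
The threefolds: `Pool/Agent/N844/QP`, `Pool/Agent/N844/QG`. The theorem on the twists `E_a` is the joint
work of helpers 969, 970, 971, 972, 973, 974, 975, 99, 218, 402, 575, 809, 816, 844, 855, 871, 875,
877, 886, 890, 916, 919 and others (`MP_696deb_nt/TwistsX17`).
-/

set_option autoImplicit false

open NumberField IsDedekindDomain Finset Filter Topology Matrix
open scoped LinearAlgebra.Projectivization Classical

namespace Pool.Agent.Results.MP_787500_nt.QuadricPencilsX17

/-! ### the twists of the curve of conductor `17` and the fields -/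

/-- the twist `E_a : y² = x³ - 91 a² x - 330 a³` by `a` of `y² = x (x + 1) (x - 16)`, over the field `K` -/
def E (K : Type) [Field K] (a : ℤ) : WeierstrassCurve K :=
  { a₁ := 0, a₂ := 0, a₃ := 0, a₄ := ((-91 * a ^ 2 : ℤ) : K), a₆ := ((-330 * a ^ 3 : ℤ) : K) }

/-- `E_a(ℚ)` is finite and `Ш(E_a/ℚ)` has no element of order two -/
def RankZeroShaTwo (a : ℤ) : Prop :=
  Finite (E ℚ a).toAffine.Point ∧ ∀ x : Pool.Agent.TH841.SH.D.Sha (E ℚ a), 2 • x = 0 → x = 0

/-- `ℚ(√d_1, …, √d_r)` has degree `2 ^ r` -/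
def Independent {r : ℕ} (d : Fin r → ℤ) : Prop :=
  ∀ T : Finset (Fin r), T.Nonempty → ¬ IsSquare (∏ t ∈ T, d t)

/-- `K = ℚ(√d_1, …, √d_r)` -/
def IsMultiquadratic {r : ℕ} (d : Fin r → ℤ) (K : Type) [Field K] [NumberField K] : Prop :=
  ∃ x : Fin r → K, (∀ t, x t ^ 2 = (d t : K)) ∧ IntermediateField.adjoin ℚ (Set.range x) = ⊤

/-- `a` is good over `ℚ(√d_1, …, √d_r)`: the curves `E_{a d_T}` over `ℚ` have finitely many rational points
and no element of order two in the Tate-Shafarevich group -/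
def Good {r : ℕ} (d : Fin r → ℤ) (a : ℤ) : Prop :=
  ∀ T : Finset (Fin r), a * ∏ t ∈ T, d t ≠ 0 ∧ RankZeroShaTwo (a * ∏ t ∈ T, d t)

/-- the number of the squarefree integers `d`, `|d| ≤ X`, with the property `P` -/
noncomputable def count (P : ℤ → Prop) (X : ℕ) : ℕ :=
  ((Icc (-(X : ℤ)) X).filter fun d => Squarefree d ∧ P d).card

/-- `D` is a fundamental discriminant (`1` included) -/
def Fund (D : ℤ) : Prop := (Squarefree D ∧ D % 4 = 1) ∨
  ∃ m : ℤ, D = 4 * m ∧ Squarefree m ∧ (m % 4 = 2 ∨ m % 4 = 3)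

/-- the squarefree integer `d` with `ℚ(√d) = ℚ(√D)` -/
def core (D : ℤ) : ℤ := if D % 2 = 1 then D else D / 4

/-- the number of the fundamental discriminants `D`, `|D| ≤ X`, for which `core D` has the
property `P` -/
noncomputable def countDisc (P : ℤ → Prop) (X : ℕ) : ℕ :=
  ((Icc (-(X : ℤ)) X).filter fun D => Fund D ∧ P (core D)).card

/-! ### the intersections of two quadrics -/

/-- the quadratic form of a matrix -/
def qf {R : Type*} [CommRing R] {N : ℕ} (M : Matrix (Fin N) (Fin N) R) (y : Fin N → R) : R :=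
  y ⬝ᵥ (M *ᵥ y)

/-- the integral pencils of quadrics in `P⁵` with the discriminant curve
`y² = -4641 b (x² + 4352 ab) (x² - 289 ab) (x² + 78608 ab)` -/
structure IsPencil (a b m : ℤ) (A B : Matrix (Fin 6) (Fin 6) ℤ) : Prop where
  symA : A.IsSymm
  symB : B.IsSymm
  disc : ∀ x : ℤ, (x • A - B).det = 4641 * b * m ^ 2 * ((x ^ 2 + 4352 * (a * b)) *
    (x ^ 2 - 289 * (a * b)) * (x ^ 2 + 78608 * (a * b)))

/-- the reduction of an integral matrix to a field -/
def red {N : ℕ} (A : Matrix (Fin N) (Fin N) ℤ) (k : Type) [Field k] : Matrix (Fin N) (Fin N) k :=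
  A.map (Int.castRingHom k)

/-- the base locus of the pencil is smooth over `k` (Jacobian criterion at the points over `k`) -/
def Smooth (A B : Matrix (Fin 6) (Fin 6) ℤ) (k : Type) [Field k] : Prop :=
  ∀ y : Fin 6 → k, y ≠ 0 → qf (red A k) y = 0 → qf (red B k) y = 0 →
    LinearIndependent k ![red A k *ᵥ y, red B k *ᵥ y]

/-- the number of points over `k` of the base locus `X ⊂ P⁵` of the pencil -/
noncomputable def numP (A B : Matrix (Fin 6) (Fin 6) ℤ) (k : Type) [Field k] : ℕ :=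
  Nat.card {P : ℙ k (Fin 6 → k) // qf (red A k) P.rep = 0 ∧ qf (red B k) P.rep = 0}

/-- the number `q_v` of elements of the residue field of a finite place `v` of `K` -/
noncomputable def qv (K : Type) [Field K] (v : HeightOneSpectrum (𝓞 K)) : ℕ :=
  Nat.card (𝓞 K ⧸ v.asIdeal)

/-- the trace of Frobenius of `E_a`: `q_v` minus the number of affine points of `E_a` over the residue
field -/
noncomputable def av (K : Type) [Field K] (a : ℤ) (v : HeightOneSpectrum (𝓞 K)) : ℤ :=
  (qv K v : ℤ) - Nat.card {z : (𝓞 K ⧸ v.asIdeal) × (𝓞 K ⧸ v.asIdeal) //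
    z.2 ^ 2 = z.1 ^ 3 + ((-91 * a ^ 2 : ℤ) : 𝓞 K ⧸ v.asIdeal) * z.1 +
      ((-330 * a ^ 3 : ℤ) : 𝓞 K ⧸ v.asIdeal)}

/-- `H³(X) = (H¹(E_a) ⊕ H¹(E_b))(-1)` at all the places `v` of `K` not dividing `M`: let `ω, ω̄` and `ω', ω̄'`
be the eigenvalues of Frobenius of the two curves over the residue field with `q` elements; the number of
points of `X` over every extension `k` of degree `r` of the residue field is
`1 + q^r + q^(2r) + q^(3r) - ((q ω)^r + (q ω̄)^r + (q ω')^r + (q ω̄')^r)` -/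
def Decomposition (K : Type) [Field K] [NumberField K] (a b M : ℤ)
    (A B : Matrix (Fin 6) (Fin 6) ℤ) : Prop :=
  ∀ v : HeightOneSpectrum (𝓞 K), ((M : ℤ) : 𝓞 K) ∉ v.asIdeal →
    ∃ ω ω' : ℂ, ω * (starRingEnd ℂ) ω = qv K v ∧ ω' * (starRingEnd ℂ) ω' = qv K v ∧
      (av K a v : ℂ) = ω + (starRingEnd ℂ) ω ∧ (av K b v : ℂ) = ω' + (starRingEnd ℂ) ω' ∧
      ∀ (k : Type) [Field k] [Fintype k] [Algebra (𝓞 K ⧸ v.asIdeal) k] (r : ℕ),
        Fintype.card k = qv K v ^ r →
        (numP A B k : ℂ) =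
          1 + (qv K v : ℂ) ^ r + (qv K v : ℂ) ^ (2 * r) + (qv K v : ℂ) ^ (3 * r) -
            (qv K v : ℂ) ^ r * ((ω ^ r + (starRingEnd ℂ) ω ^ r) +
              (ω' ^ r + (starRingEnd ℂ) ω' ^ r))

/-- `W` is an elliptic curve, and `W(K) ⊗ ℚ_2`, `H⁰(K, V_2 W)` and `H¹_f(K, V_2 W)` are zero -/
def AllZero {K : Type} [Field K] [NumberField K] (W : WeierstrassCurve K) : Prop :=
  W.IsElliptic ∧ (∀ x : TensorProduct ℤ W.toAffine.Point ℚ_[2], x = 0) ∧
    (∀ y : Pool.Agent.Y667.BKP.PSeq W, Pool.Agent.Y667.BKP.IsV 2 W y →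
      (∀ (σ : Pool.Agent.TH841.SH.D.Gal K) (n : ℕ),
        Pool.Agent.TH841.SH.D.act W σ.toAlgHom (y n) = y n) → y = 0) ∧
    ∀ x : Pool.Agent.Y667.BKP.H1f 2 W, x = 0

/-- the conjecture for the intersections of two quadrics of the pair `(a, b)` over
`K = ℚ(√d_1, …, √d_r)` -/
def BlochKato {r : ℕ} (d : Fin r → ℤ) (a b : ℤ) : Prop :=
  ∀ (K : Type) [Field K] [NumberField K], IsMultiquadratic d K →
    Module.finrank ℚ K = 2 ^ r ∧ AllZero (E K a) ∧ AllZero (E K b) ∧
    ∀ m : ℤ, m ≠ 0 → ∀ A B : Matrix (Fin 6) (Fin 6) ℤ, IsPencil a b m A B →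
      (∀ (k : Type) [Field k] [CharZero k], Smooth A B k) ∧
      Decomposition K a b (9282 * (a * b * m)) A B

/-- the matrix of the first quadric of `X_a` -/
def exA (a : ℤ) : Matrix (Fin 6) (Fin 6) ℤ :=
  !![1, 0, 0, 0, 0, 0;
     0, 4641 * a, 0, 0, 0, 0;
     0, 0, 1, 0, 0, 0;
     0, 0, 0, -17, 0, 0;
     0, 0, 0, 0, 1, 0;
     0, 0, 0, 0, 0, -17]

/-- the matrix of the second quadric of `X_a` -/
def exB (a : ℤ) : Matrix (Fin 6) (Fin 6) ℤ :=
  !![17 * a, 0, 0, 0, 0, 0;
     0, -78897 * a ^ 2, 0, 0, 0, 0;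
     0, 0, 0, 272 * a, 0, 0;
     0, 0, 272 * a, 0, 0, 0;
     0, 0, 0, 0, 0, 1156 * a;
     0, 0, 0, 0, 1156 * a, 0]

open Pool.Agent.N875.P17 (WS)
open Pool.Agent.N916.MO (G17)
open Pool.Agent.N919.BS (NS NF Rt17)

theorem E_eq (d : ℤ) : E ℚ d = WS d := rfl

theorem rank_eq (d : ℤ) : RankZeroShaTwo d ↔ Pool.Agent.N875.X15.Fin2 (WS d) := by
  unfold RankZeroShaTwo Pool.Agent.N875.X15.Fin2
  rw [← E_eq]
  refine and_congr Iff.rfl (forall_congr' fun x => ?_)
  rw [two_nsmul]

theorem rank_iff {d : ℤ} (hs : Squarefree d) : RankZeroShaTwo d ↔ Rt17 d ∧ G17 d := by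
  rw [rank_eq]
  exact Pool.Agent.N809.P17.fin2_all hs

theorem fund_core {D : ℤ} (h : Fund D) : Squarefree (core D) := by
  rcases h with ⟨h1, h2⟩ | ⟨m, rfl, h1, h2⟩
  · unfold core
    rw [if_pos (by omega)]
    exact h1
  · unfold core
    rw [if_neg (by omega)]
    have : 4 * m / 4 = m := by omega
    rw [this]
    exact h1

theorem count_eq (P Q : ℤ → Prop) (h : ∀ d, Squarefree d → (P d ↔ Q d)) (X : ℕ) :
    count P X = NS Q X := by
  unfold count NS
  refine congrArg Finset.card (Finset.ext fun n => ?_)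
  refine (Finset.mem_filter).trans (Iff.trans ?_ (Finset.mem_filter).symm)
  refine and_congr_right fun _ => and_congr_right fun hs => h n hs

theorem countDisc_eq (P Q : ℤ → Prop) (h : ∀ d, Squarefree d → (P d ↔ Q d)) (X : ℕ) :
    countDisc P X = NF Q X := by
  unfold countDisc NF
  refine congrArg Finset.card (Finset.ext fun n => ?_)
  refine (Finset.mem_filter).trans (Iff.trans ?_ (Finset.mem_filter).symm)
  refine and_congr_right fun _ => and_congr_right fun hs => h _ (fund_core hs)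

theorem hasProd_c2 : HasProd (fun i : ℕ => 1 - (1 / 2 : ℝ) ^ (2 * i + 1)) Pool.Agent.Y703.CQ.c2 := by
  have h : Multipliable fun i : ℕ => 1 + -((1 / 2 : ℝ) ^ (2 * i + 1)) := by
    apply multipliable_one_add_of_summable
    have h1 : Summable fun i : ℕ => (1 / 4 : ℝ) ^ i * (1 / 2) :=
      (summable_geometric_of_lt_one (by norm_num) (by norm_num)).mul_right _
    refine h1.congr fun i => ?_
    rw [norm_neg, Real.norm_of_nonneg (by positivity), pow_succ, pow_mul]
    norm_num
  have h3 := h.hasProd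
  have e : (fun i : ℕ => 1 + -((1 / 2 : ℝ) ^ (2 * i + 1))) =
      fun i : ℕ => 1 - (1 / 2 : ℝ) ^ (2 * i + 1) := by
    funext i
    ring
  rw [e] at h3
  exact h3

theorem ga_of {r : ℕ} {d : Fin r → ℤ} {a : ℤ} (h : Good d a) (T : Finset (Fin r)) :
    Pool.Agent.N844.QG.F17.GA (a * ∏ t ∈ T, d t) := ⟨(h T).1, (rank_eq _).1 (h T).2⟩

theorem allZero {r : ℕ} {d : Fin r → ℤ} {a : ℤ} (hi : Independent d) (h : Good d a)
    (K : Type) [Field K] [NumberField K] (hK : IsMultiquadratic d K) : AllZero (E K a) := by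
  obtain ⟨x, hx, hx2⟩ := hK
  obtain ⟨g1, -, g3, g4, g5⟩ := Pool.Agent.N844.QG.T17.curveK hi (ga_of h) K x hx hx2
  exact ⟨⟨isUnit_iff_ne_zero.2 g1⟩, g3, g5, g4⟩

theorem blochKato {r : ℕ} {d : Fin r → ℤ} {a b : ℤ} (hi : Independent d) (ha : Good d a)
    (hb : Good d b) : BlochKato d a b := by
  intro K _ _ hK
  refine ⟨?_, allZero hi ha K hK, allZero hi hb K hK, fun m hm A B hAB => ?_⟩
  · obtain ⟨x, hx, hx2⟩ := hK
    exact Pool.Agent.N844.QG.T17.degree hi K x hx hx2
  have ha0 : a ≠ 0 := left_ne_zero_of_mul (ha ∅).1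
  have hb0 : b ≠ 0 := left_ne_zero_of_mul (hb ∅).1
  have hAB' : Pool.Agent.N844.QG.Is17 a b m A B := ⟨hAB.symA, hAB.symB, hAB.disc⟩
  refine ⟨fun k _ _ y hy h6 h7 => ?_, fun v hv => ?_⟩
  · exact hAB'.pen.smooth (Pool.Agent.N844.QG.gd17 (by norm_num) (by norm_num) (by norm_num)
      (by norm_num) (by norm_num) (by exact_mod_cast ha0) (by exact_mod_cast hb0)
      (by exact_mod_cast hm)) hy h6 h7
  · obtain ⟨ω, ω', w1, w2, w3, w4, w5⟩ := Pool.Agent.N844.QG.decompS hAB'.split hv
    exact ⟨ω, ω', w1, w2, w3, w4, fun k _ _ _ r hr => w5 k r hr⟩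

theorem good_one {m : ℤ} (hm : m ≠ 0) (h : RankZeroShaTwo m) (h1 : RankZeroShaTwo 1) :
    Good (fun _ : Fin 1 => m) 1 := by
  intro T
  rcases T.eq_empty_or_nonempty with rfl | ⟨i, hi⟩
  · rw [Finset.prod_empty, mul_one]
    exact ⟨one_ne_zero, h1⟩
  · have : T = {0} := by
      ext j
      rw [Finset.mem_singleton]
      refine ⟨fun _ => Subsingleton.elim _ _, fun _ => ?_⟩
      rw [Subsingleton.elim j i]
      exact hi
    rw [this, Finset.prod_singleton, one_mul]
    exact ⟨hm, h⟩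

/-- **The conjecture of Bloch and Kato on the Abel–Jacobi map, `p = 2`, for all quadratic twists of a
threefold without complex multiplication, over multiquadratic fields.** -/
theorem result :
    -- the conjecture for all good pairs and for all pencils
    (∀ (r : ℕ) (d : Fin r → ℤ) (a b : ℤ), Independent d → Good d a → Good d b → BlochKato d a b) ∧
    -- the fixed threefold `X_1` over quadratic fields
    (∀ m : ℤ, m ≠ 0 → RankZeroShaTwo m → Good (fun _ : Fin 1 => m) 1) ∧
    -- the twists `X_a` of an explicit threefold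
    (∀ a : ℤ, IsPencil a a 17 (exA a) (exB a)) ∧
    -- the natural density
    ∃ η : ℝ, HasProd (fun i : ℕ => 1 - (1 / 2 : ℝ) ^ (2 * i + 1)) η ∧ 0.4194 < η ∧ η < 0.4195 ∧
      Tendsto (fun X : ℕ => (count RankZeroShaTwo X : ℝ) / (count (fun _ => True) X : ℝ))
        atTop (nhds (η / 2)) ∧
      Tendsto (fun X : ℕ => (countDisc RankZeroShaTwo X : ℝ) / (countDisc (fun _ => True) X : ℝ))
        atTop (nhds (η / 2)) := by
  refine ⟨fun r d a b hi ha hb => blochKato hi ha hb, fun m hm h => good_one hm h ?_, fun a => ?_,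
    ?_⟩
  · rw [rank_eq]
    exact (Pool.Agent.N875.P17.fin2S_iff squarefree_one).2 Pool.Agent.N844.QG.T17.sg_one
  · have h := Pool.Agent.N844.QG.ex17 a
    exact ⟨h.symA, h.symB, h.disc⟩
  · have e1 := count_eq RankZeroShaTwo (fun d => Rt17 d ∧ G17 d) fun d hs => rank_iff hs
    have e2 := count_eq (fun _ => True) (fun _ => True) fun d _ => Iff.rfl
    have e3 := countDisc_eq RankZeroShaTwo (fun d => Rt17 d ∧ G17 d) fun d hs => rank_iff hs
    have e4 := countDisc_eq (fun _ => True) (fun _ => True) fun d _ => Iff.rfl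
    obtain ⟨-, -, -, hb1, hb2⟩ := Pool.Agent.Y948.CQ.t_C2
    refine ⟨Pool.Agent.Y703.CQ.c2, hasProd_c2, hb1, hb2, ?_, ?_⟩
    · refine Pool.Agent.N916.MO.dens17_sf.congr fun X => ?_
      rw [e1, e2]
    · refine Pool.Agent.N916.MO.dens17_fd.congr fun X => ?_
      rw [e3, e4]

end Pool.Agent.Results.MP_787500_nt.QuadricPencilsX17
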